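import Pool.Agent.Y546.WQ.Stm2

/-!
# LOC2: the norm polynomial modulo two, if all primes above two have norm two
-/

set_option autoImplicit false

namespace Pool.Agent.Y809.WQ

open NumberField IsDedekindDomain Polynomial
open Pool.Agent.Y546.WQ

/-- in a quotient ring with two elements -/
theorem card_two {R : Type} [CommRing R] {P : Ideal R} (hP : P.IsPrime)
    (h : Nat.card (R ⧸ P) = 2) (w : R) : w ∈ P ∨ w - 1 ∈ P := by
  by_cases hw : w ∈ P
  · exact Or.inl hw
  · right
    obtain ⟨y, _, hy2⟩ := (Nat.card_eq_two_iff' (0 : R ⧸ P)).1 h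
    have h1 : Ideal.Quotient.mk P w = y := hy2 _ (fun h0 => hw (Ideal.Quotient.eq_zero_iff_mem.1 h0))
    have h2 : Ideal.Quotient.mk P 1 = y := hy2 _ (fun h0 =>
      hP.ne_top ((Ideal.eq_top_iff_one _).2 (Ideal.Quotient.eq_zero_iff_mem.1 h0)))
    rw [← Ideal.Quotient.eq_zero_iff_mem, map_sub, h1, h2, sub_self]

theorem reflect_one_add (d : ℕ) :
    Polynomial.reflect d ((1 + X : Polynomial (ZMod 2)) ^ d) = (1 + X) ^ d := by
  induction d with
  | zero =>
    rw [pow_zero]
    simp
  | succ d ih =>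
    have hX : (1 + X : Polynomial (ZMod 2)).natDegree ≤ 1 := by
      compute_degree
    have hXd : ((1 + X : Polynomial (ZMod 2)) ^ d).natDegree ≤ d := by
      refine (Polynomial.natDegree_pow_le).trans ?_
      calc d * (1 + X : Polynomial (ZMod 2)).natDegree ≤ d * 1 := Nat.mul_le_mul_left _ hX
        _ = d := mul_one d
    rw [pow_succ, Polynomial.reflect_mul _ _ hXd hX, ih]
    congr 1
    have h0 := Polynomial.reflect_monomial (R := ZMod 2) 1 0
    have h1 := Polynomial.reflect_monomial (R := ZMod 2) 1 1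
    rw [Polynomial.revAt_le (by norm_num), pow_zero] at h0
    rw [Polynomial.revAt_le le_rfl, pow_one] at h1
    rw [Polynomial.reflect_add, h0, h1]
    simp [add_comm]

theorem reflect_G (a b d : ℕ) :
    Polynomial.reflect (a + b + d) ((X : Polynomial (ZMod 2)) ^ a * (1 + X) ^ d) =
      X ^ b * (1 + X) ^ d := by
  have hX : (1 + X : Polynomial (ZMod 2)).natDegree ≤ 1 := by
    compute_degree
  have hXd : ((1 + X : Polynomial (ZMod 2)) ^ d).natDegree ≤ d := by
    refine (Polynomial.natDegree_pow_le).trans ?_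
    calc d * (1 + X : Polynomial (ZMod 2)).natDegree ≤ d * 1 := Nat.mul_le_mul_left _ hX
      _ = d := mul_one d
  have hXa : ((X : Polynomial (ZMod 2)) ^ a).natDegree ≤ a + b := by
    rw [Polynomial.natDegree_X_pow]
    omega
  rw [Polynomial.reflect_mul _ _ hXa hXd, reflect_one_add, Polynomial.reflect_monomial,
    Polynomial.revAt_le (by omega)]
  congr 2
  omega

/-- equality modulo two from equality in a nonzero ring in which two is zero -/
theorem map_two {F : Type} [CommRing F] [Nontrivial F] (h2 : (2 : F) = 0) {f g : Polynomial ℤ}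
    (h : f.map (Int.castRingHom F) = g.map (Int.castRingHom F)) :
    f.map (Int.castRingHom (ZMod 2)) = g.map (Int.castRingHom (ZMod 2)) := by
  ext n
  rw [Polynomial.coeff_map, Polynomial.coeff_map]
  have h1 := congrArg (fun q => Polynomial.coeff q n) h
  simp only [Polynomial.coeff_map] at h1
  have h3 : ((f.coeff n - g.coeff n : ℤ) : F) = 0 := by
    rw [Int.cast_sub]
    simpa using sub_eq_zero.2 h1
  rcases Int.even_or_odd' (f.coeff n - g.coeff n) with ⟨k, hk | hk⟩
  · have h4 : ((f.coeff n - g.coeff n : ℤ) : ZMod 2) = 0 := by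
      rw [hk, Int.cast_mul]
      have : ((2 : ℤ) : ZMod 2) = 0 := by decide
      rw [this, zero_mul]
    rw [Int.cast_sub] at h4
    simpa using sub_eq_zero.1 h4
  · exfalso
    rw [hk, Int.cast_add, Int.cast_mul] at h3
    have h5 : ((2 : ℤ) : F) = 0 := by
      rw [← h2]
      norm_num
    rw [h5, zero_mul, zero_add, Int.cast_one] at h3
    exact one_ne_zero h3

theorem mainLOC2 : S_LOC2 := by
  classical
  intro K N _ _ _ _ hcard hres Q hQ h2Q x y z hxyz a b d ha hb hd
  set m : (K →+* N) → (𝓞 K →+* 𝓞 N) := fun τ => RingOfIntegers.mapRingHom τ with hm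
  have hP : ∀ τ, (Q.comap (m τ)).IsPrime := fun τ => hQ.comap _
  have hP2 : ∀ τ, (2 : 𝓞 K) ∈ Q.comap (m τ) := by
    intro τ
    rw [Ideal.mem_comap, map_ofNat]
    exact h2Q
  have hw : ∀ τ (w : 𝓞 K), m τ w ∈ Q ∨ m τ w - 1 ∈ Q := by
    intro τ w
    have h := card_two (hP τ) (hres _ (hP τ) (hP2 τ)) w
    rw [Ideal.mem_comap, Ideal.mem_comap, map_sub, map_one] at h
    exact h
  have h1Q : (1 : 𝓞 N) ∉ Q := fun h => hQ.ne_top ((Ideal.eq_top_iff_one _).2 h)
  have hsum : ∀ τ, m τ x + m τ y + m τ z ∈ Q := by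
    intro τ
    have h := (hxyz _ (hP τ) (hP2 τ)).1
    rw [Ideal.mem_comap, map_add, map_add] at h
    exact h
  have hnot : ∀ τ, ¬ (m τ x ∈ Q ∧ m τ y ∈ Q ∧ m τ z ∈ Q) := fun τ =>
    (hxyz _ (hP τ) (hP2 τ)).2
  -- exactly one of the three is in `Q`
  have hcase : ∀ τ, (m τ x ∈ Q ∧ m τ y - 1 ∈ Q ∧ m τ y ∉ Q ∧ m τ z ∉ Q) ∨
      (m τ x - 1 ∈ Q ∧ m τ x ∉ Q ∧ m τ y ∈ Q ∧ m τ z ∉ Q) ∨
      (m τ x - 1 ∈ Q ∧ m τ y - 1 ∈ Q ∧ m τ x ∉ Q ∧ m τ y ∉ Q ∧ m τ z ∈ Q) := by
    intro τ
    have s := hsum τ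
    have n := hnot τ
    have k : ∀ w : 𝓞 K, m τ w - 1 ∈ Q → m τ w ∉ Q := by
      intro w h1 h2
      apply h1Q
      have h3 := Q.sub_mem h2 h1
      rwa [sub_sub_cancel] at h3
    rcases hw τ x with hx | hx
    · rcases hw τ y with hy | hy
      · exfalso
        apply n
        refine ⟨hx, hy, ?_⟩
        have h3 := Q.sub_mem s (Q.add_mem hx hy)
        rwa [add_sub_cancel_left] at h3
      · left
        refine ⟨hx, hy, k y hy, ?_⟩
        intro hz
        apply k y hy
        have h3 := Q.sub_mem s (Q.add_mem hx hz)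
        have e : m τ x + m τ y + m τ z - (m τ x + m τ z) = m τ y := by ring
        rwa [e] at h3
    · right
      rcases hw τ y with hy | hy
      · left
        refine ⟨hx, k x hx, hy, ?_⟩
        intro hz
        apply k x hx
        have h3 := Q.sub_mem s (Q.add_mem hy hz)
        have e : m τ x + m τ y + m τ z - (m τ y + m τ z) = m τ x := by ring
        rwa [e] at h3
      · right
        refine ⟨hx, hy, k x hx, k y hy, ?_⟩
        have h3 := Q.sub_mem (Q.sub_mem s (Q.add_mem hx hy)) h2Q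
        have e : m τ x + m τ y + m τ z - (m τ x - 1 + (m τ y - 1)) - 2 = m τ z := by ring
        rwa [e] at h3
  have ca : a = (Finset.univ.filter fun τ : K →+* N => m τ x ∈ Q).card := by
    rw [ha, Nat.card_eq_fintype_card, Fintype.card_subtype]
  have cb : b = (Finset.univ.filter fun τ : K →+* N => m τ y ∈ Q).card := by
    rw [hb, Nat.card_eq_fintype_card, Fintype.card_subtype]
  have cd : d = (Finset.univ.filter fun τ : K →+* N => m τ z ∈ Q).card := by
    rw [hd, Nat.card_eq_fintype_card, Fintype.card_subtype]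
  have htot : a + b + d = Module.finrank ℚ K := by
    rw [← hcard, Nat.card_eq_fintype_card, ca, cb, cd, ← Finset.card_univ,
      Finset.card_filter, Finset.card_filter, Finset.card_filter, ← Finset.sum_add_distrib,
      ← Finset.sum_add_distrib, Finset.card_eq_sum_ones]
    refine Finset.sum_congr rfl fun τ _ => ?_
    rcases hcase τ with ⟨h1, _, h2, h3⟩ | ⟨_, h1, h2, h3⟩ | ⟨_, _, h1, h2, h3⟩ <;>
      simp [h1, h2, h3]
  refine ⟨htot, fun f _ hf => ?_⟩
  have hG : f.map (Int.castRingHom (ZMod 2)) =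
      (X ^ a * (1 + X) ^ d : Polynomial ℤ).map (Int.castRingHom (ZMod 2)) := by
    have : Nontrivial (𝓞 N ⧸ Q) := Ideal.Quotient.nontrivial_iff.2 hQ.ne_top
    have h20 : (2 : 𝓞 N ⧸ Q) = 0 := by
      have h := Ideal.Quotient.eq_zero_iff_mem.2 h2Q
      rwa [map_ofNat] at h
    refine map_two h20 ?_
    have e1 : f.map (Int.castRingHom (𝓞 N ⧸ Q)) =
        (f.map (Int.castRingHom (𝓞 N))).map (Ideal.Quotient.mk Q) := by
      rw [Polynomial.map_map]
      congr 1
    rw [e1, hf, nrmP, Polynomial.map_prod]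
    have e2 : ∀ τ : K →+* N, (Polynomial.C (RingOfIntegers.mapRingHom τ x) +
        X * Polynomial.C (RingOfIntegers.mapRingHom τ y)).map (Ideal.Quotient.mk Q) =
        (if m τ x ∈ Q then X else 1) * (if m τ z ∈ Q then 1 + X else 1) := by
      intro τ
      have v : ∀ w : 𝓞 K, m τ w - 1 ∈ Q → Ideal.Quotient.mk Q (m τ w) = 1 := by
        intro w h
        have h' := Ideal.Quotient.eq_zero_iff_mem.2 h
        rw [map_sub, map_one] at h'
        exact sub_eq_zero.1 h'
      have v0 : ∀ w : 𝓞 K, m τ w ∈ Q → Ideal.Quotient.mk Q (m τ w) = 0 := fun w h =>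
        Ideal.Quotient.eq_zero_iff_mem.2 h
      rw [Polynomial.map_add, Polynomial.map_mul, Polynomial.map_C, Polynomial.map_C,
        Polynomial.map_X]
      change Polynomial.C (Ideal.Quotient.mk Q (m τ x)) +
        X * Polynomial.C (Ideal.Quotient.mk Q (m τ y)) = _
      rcases hcase τ with ⟨h1, h1', h2, h3⟩ | ⟨h1', h1, h2, h3⟩ | ⟨h1', h2', h1, h2, h3⟩
      · rw [v0 x h1, v y h1', if_pos h1, if_neg h3]
        simp
      · rw [v x h1', v0 y h2, if_neg h1, if_neg h3]
        simp
      · rw [v x h1', v y h2', if_neg h1, if_pos h3]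
        simp
    rw [Finset.prod_congr rfl fun τ _ => e2 τ, Finset.prod_mul_distrib, Finset.prod_ite,
      Finset.prod_ite, Finset.prod_const, Finset.prod_const, Finset.prod_const,
      Finset.prod_const, one_pow, one_pow, mul_one, mul_one, ← ca, ← cd]
    simp
  have hr : (f.reflect (Module.finrank ℚ K)).map (Int.castRingHom (ZMod 2)) =
      Polynomial.reflect (Module.finrank ℚ K) (f.map (Int.castRingHom (ZMod 2))) :=
    (Polynomial.reflect_map _ _ _).symm
  have e3 : (X ^ a * (1 + X) ^ d : Polynomial ℤ).map (Int.castRingHom (ZMod 2)) =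
      X ^ a * (1 + X) ^ d := by simp
  rw [hr, hG, e3, ← htot, reflect_G]
  ring

end Pool.Agent.Y809.WQ
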